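import Pool.Agent.Helper89.MD.FIN

set_option autoImplicit false

namespace Pool.Agent.Results.MP_895f30_al.SecondDerived

/-- Let `G` be a finite `p`-group whose largest irreducible degree is `p ^ e`, attained by a
representation that is trivial on the second derived subgroup. Any finite set `S` of elements
outside the second derived subgroup with `|S| + e ≤ p` is detected by one irreducible
representation of degree `p ^ e`. -/
theorem result :
    ∀ (p : ℕ), p.Prime → ∀ (G : Type) [Group G] [Finite G], IsPGroup p G → ∀ e : ℕ,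
      (∃ ρ : G →* Matrix.GeneralLinearGroup (Fin (p ^ e)) ℂ,
        (∀ W : Submodule ℂ (Fin (p ^ e) → ℂ),
          (∀ g : G, ∀ v ∈ W, Matrix.mulVec (ρ g).1 v ∈ W) → W = ⊥ ∨ W = ⊤) ∧
        ∀ g ∈ derivedSeries G 2, ρ g = 1) →
      (∀ n : ℕ, 0 < n → ∀ ρ : G →* Matrix.GeneralLinearGroup (Fin n) ℂ,
        (∀ W : Submodule ℂ (Fin n → ℂ),
          (∀ g : G, ∀ v ∈ W, Matrix.mulVec (ρ g).1 v ∈ W) → W = ⊥ ∨ W = ⊤) →
        n ≤ p ^ e) →
      ∀ S : Finset G, (∀ g ∈ S, g ∉ derivedSeries G 2) → S.card + e ≤ p →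
        ∃ ρ : G →* Matrix.GeneralLinearGroup (Fin (p ^ e)) ℂ,
          (∀ W : Submodule ℂ (Fin (p ^ e) → ℂ),
            (∀ h : G, ∀ v ∈ W, Matrix.mulVec (ρ h).1 v ∈ W) → W = ⊥ ∨ W = ⊤) ∧
          ∀ g ∈ S, ρ g ≠ 1 :=
  fun p hp G _ _ hG e hex hmax S hS hcard =>
    Pool.Agent.Helper89.MD.FIN p hp G hG e hex hmax S hS hcard

end Pool.Agent.Results.MP_895f30_al.SecondDerived
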