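import Pool.Agent.Helper74.MX.CYC

set_option autoImplicit false

namespace Pool.Agent.Results.MP_895f30_al.SmallExponent

/-- Let `G` be a finite `p`-group whose largest irreducible degree is `p ^ e` with `e ≤ 2`. Any
finite set `S` of nontrivial elements with `|S| + e ≤ p` is detected by one irreducible
representation of degree `p ^ e`. -/
theorem result :
    ∀ (p : ℕ), p.Prime → ∀ (G : Type) [Group G] [Finite G], IsPGroup p G → ∀ e : ℕ, e ≤ 2 →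
      (∃ ρ : G →* Matrix.GeneralLinearGroup (Fin (p ^ e)) ℂ,
        ∀ W : Submodule ℂ (Fin (p ^ e) → ℂ),
          (∀ g : G, ∀ v ∈ W, Matrix.mulVec (ρ g).1 v ∈ W) → W = ⊥ ∨ W = ⊤) →
      (∀ n : ℕ, 0 < n → ∀ ρ : G →* Matrix.GeneralLinearGroup (Fin n) ℂ,
        (∀ W : Submodule ℂ (Fin n → ℂ),
          (∀ g : G, ∀ v ∈ W, Matrix.mulVec (ρ g).1 v ∈ W) → W = ⊥ ∨ W = ⊤) →
        n ≤ p ^ e) →
      ∀ S : Finset G, (∀ s ∈ S, s ≠ 1) → S.card + e ≤ p →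
        ∃ ρ : G →* Matrix.GeneralLinearGroup (Fin (p ^ e)) ℂ,
          (∀ W : Submodule ℂ (Fin (p ^ e) → ℂ),
            (∀ g : G, ∀ v ∈ W, Matrix.mulVec (ρ g).1 v ∈ W) → W = ⊥ ∨ W = ⊤) ∧
          ∀ s ∈ S, ρ s ≠ 1 :=
  fun _ hp _ _ _ hG e he hex hmax S hS hcard =>
    Pool.Agent.Helper74.MX.EXP2 hp hG e hex hmax he S hS hcard

end Pool.Agent.Results.MP_895f30_al.SmallExponent
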